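import Mathlib
import Pool.Agent.H29.CircOrd

namespace Pool.Agent.Results.MP_b6cdd3_co.Bipartite

open Pool.Agent.H29.CircOrd

theorem result : ∃ P : ∀ n, SimpleGraph (Fin n) → Prop,
    Hereditary P ∧ LinDescribed P ∧ ¬ CircDescribed P :=
  ⟨fun _ G => G.Colorable 2, fun _ _ _ _ ⟨e⟩ h => h.of_hom e.toHom, lin_two, not_circ 2 le_rfl⟩

end Pool.Agent.Results.MP_b6cdd3_co.Bipartite
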